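import Pool.Agent.H80.HS.Targets

namespace Pool.Agent.H68.HS
open MeasureTheory Set Pool.Agent.H80.HS
open scoped ContDiff ENNReal

theorem c1_pt {F : Type} [NormedAddCommGroup F] [InnerProductSpace ℝ F] {n : ℕ}
    {u : H n → F} {γ : ℝ} (hγ : 1 < γ) (hu : ContDiff ℝ 1 u) (p w : H n) :
    ‖fderiv ℝ (fun p => ‖u p‖ ^ γ) p w‖ ≤ γ * ‖u p‖ ^ (γ - 1) * ‖fderiv ℝ u p w‖ := by
  have hd : Differentiable ℝ u := hu.differentiable one_ne_zero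
  rw [hd.fderiv_norm_rpow hγ]
  have e : ((γ * ‖u p‖ ^ (γ - 2)) • (innerSL ℝ (u p)).comp (fderiv ℝ u p)) w =
      (γ * ‖u p‖ ^ (γ - 2)) * inner ℝ (u p) (fderiv ℝ u p w) := rfl
  rw [e, norm_mul, Real.norm_of_nonneg (by positivity : 0 ≤ γ * ‖u p‖ ^ (γ - 2))]
  have h1 : ‖inner ℝ (u p) (fderiv ℝ u p w)‖ ≤ ‖u p‖ * ‖fderiv ℝ u p w‖ := norm_inner_le_norm _ _
  have h2 : ‖u p‖ ^ (γ - 2) * ‖u p‖ = ‖u p‖ ^ (γ - 1) := by
    by_cases h0 : u p = 0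
    · rw [h0, norm_zero, mul_zero, Real.zero_rpow (by linarith)]
    · have h3 : 0 < ‖u p‖ := norm_pos_iff.2 h0
      rw [← Real.rpow_add_one h3.ne']
      congr 1
      ring
  calc γ * ‖u p‖ ^ (γ - 2) * ‖inner ℝ (u p) (fderiv ℝ u p w)‖
      ≤ γ * ‖u p‖ ^ (γ - 2) * (‖u p‖ * ‖fderiv ℝ u p w‖) :=
        mul_le_mul_of_nonneg_left h1 (by positivity)
    _ = γ * (‖u p‖ ^ (γ - 2) * ‖u p‖) * ‖fderiv ℝ u p w‖ := by ring
    _ = γ * ‖u p‖ ^ (γ - 1) * ‖fderiv ℝ u p w‖ := by rw [h2]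

theorem c1 : T_C1 := by
  intro F _ _ n u γ hγ hu hc
  refine ⟨hu.norm_rpow hγ, ?_, fun p => ?_⟩
  · refine HasCompactSupport.intro hc fun p hp => ?_
    rw [image_eq_zero_of_notMem_tsupport hp, norm_zero, Real.zero_rpow (by linarith)]
  · have hA : 0 ≤ γ * ‖u p‖ ^ (γ - 1) := by positivity
    unfold grad
    rw [← Real.sqrt_sq hA, ← Real.sqrt_mul (sq_nonneg _)]
    refine Real.sqrt_le_sqrt ?_
    rw [Finset.mul_sum]
    refine Finset.sum_le_sum fun j _ => ?_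
    have hX : ‖X (fun p => ‖u p‖ ^ γ) j p‖ ≤ γ * ‖u p‖ ^ (γ - 1) * ‖X u j p‖ :=
      c1_pt hγ hu p _
    have hY : ‖Y (fun p => ‖u p‖ ^ γ) j p‖ ≤ γ * ‖u p‖ ^ (γ - 1) * ‖Y u j p‖ :=
      c1_pt hγ hu p _
    have h1 := pow_le_pow_left₀ (norm_nonneg _) hX 2
    have h2 := pow_le_pow_left₀ (norm_nonneg _) hY 2
    rw [mul_pow] at h1 h2
    rw [mul_add]
    exact add_le_add h1 h2

end Pool.Agent.H68.HS
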