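import Pool.Agent.H80.HS.Targets

namespace Pool.Agent.H68.HS
open MeasureTheory Set Pool.Agent.H80.HS
open scoped ContDiff ENNReal

theorem v3_mp {n : ℕ} (σ : ℝ) :
    MeasurePreserving (fun p : H n => ((p.1, p.2.1, p.2.2 + σ) : H n)) volume volume :=
  (MeasurePreserving.id (volume : Measure (V n))).prod
    ((MeasurePreserving.id (volume : Measure (V n))).prod
      (measurePreserving_add_right (volume : Measure ℝ) σ))

theorem v3_trans {n : ℕ} {f : H n → ℝ} (hf : Continuous f) (σ : ℝ) :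
    ∫ p : H n, f (p.1, p.2.1, p.2.2 + σ) = ∫ p, f p := by
  have h := v3_mp (n := n) σ
  have h1 := integral_map (μ := (volume : Measure (H n))) h.measurable.aemeasurable
    (f := f) (by rw [h.map_eq]; exact hf.aestronglyMeasurable)
  rw [h.map_eq] at h1
  exact h1.symm

theorem v3_integrable {n : ℕ} {f : H n → ℝ} (hf : Continuous f) (hc : HasCompactSupport f)
    (h : ℝ) : Integrable (fun z : H n × ℝ => f (z.1.1, z.1.2.1, z.1.2.2 + z.2))
      (volume.prod (volume.restrict (Ioc 0 h))) := by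
  have hi : Integrable f := hf.integrable_of_hasCompactSupport hc
  have hm : AEStronglyMeasurable (fun z : H n × ℝ => f (z.1.1, z.1.2.1, z.1.2.2 + z.2))
      (volume.prod (volume.restrict (Ioc 0 h))) := by
    have : Continuous fun z : H n × ℝ => f (z.1.1, z.1.2.1, z.1.2.2 + z.2) :=
      hf.comp (by fun_prop)
    exact this.aestronglyMeasurable
  refine (integrable_prod_iff' hm).2 ⟨Filter.Eventually.of_forall fun σ => ?_, ?_⟩
  · exact (v3_mp (n := n) σ).integrable_comp_of_integrable hi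
  · have e : (fun σ : ℝ => ∫ p : H n, ‖f (p.1, p.2.1, p.2.2 + σ)‖) = fun _ => ∫ p, ‖f p‖ := by
      funext σ
      exact v3_trans (f := fun p => ‖f p‖) hf.norm σ
    simp only [e]
    exact integrable_const _

theorem v3_avg {n : ℕ} {f : H n → ℝ} (hf : Continuous f) (hc : HasCompactSupport f)
    {h : ℝ} (hh : 0 < h) :
    Integrable (fun p : H n => (1 / h) * ∫ σ in (0 : ℝ)..h, f (p.1, p.2.1, p.2.2 + σ)) ∧
    ∫ p : H n, (1 / h) * ∫ σ in (0 : ℝ)..h, f (p.1, p.2.1, p.2.2 + σ) = ∫ p, f p := by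
  have hi := v3_integrable hf hc h
  have e : (fun p : H n => ∫ σ in (0 : ℝ)..h, f (p.1, p.2.1, p.2.2 + σ)) =
      fun p => ∫ σ in Ioc 0 h, f (p.1, p.2.1, p.2.2 + σ) := by
    funext p
    exact intervalIntegral.integral_of_le hh.le
  have h1 : Integrable (fun p : H n => ∫ σ in (0 : ℝ)..h, f (p.1, p.2.1, p.2.2 + σ)) := by
    rw [e]
    exact hi.integral_prod_left
  refine ⟨h1.const_mul _, ?_⟩
  rw [integral_const_mul, e]
  have h2 := integral_integral_swap (μ := (volume : Measure (H n)))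
    (ν := (volume : Measure ℝ).restrict (Ioc 0 h))
    (f := fun p σ => f (p.1, p.2.1, p.2.2 + σ)) hi
  rw [h2]
  simp only [v3_trans hf]
  rw [setIntegral_const]
  simp only [measureReal_def, Real.volume_Ioc, sub_zero, smul_eq_mul]
  rw [ENNReal.toReal_ofReal hh.le]
  field_simp

/-- the norm of the average of a continuous vector valued function -/
theorem v3_norm {n : ℕ} (w : ℝ → Fin n → ℝ) (hw : ∀ j, Continuous fun σ => w σ j) {h : ℝ}
    (hh : 0 < h) :
    Real.sqrt (∑ j, ‖(1 / h) * ∫ σ in (0 : ℝ)..h, w σ j‖ ^ 2) ≤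
      (1 / h) * ∫ σ in (0 : ℝ)..h, Real.sqrt (∑ j, ‖w σ j‖ ^ 2) := by
  set W : ℝ → EuclideanSpace ℝ (Fin n) := fun σ => WithLp.toLp 2 (w σ) with hW
  have hWc : Continuous W := by
    have : Continuous fun σ => w σ := continuous_pi hw
    exact (PiLp.continuous_toLp 2 _).comp this
  have h1 : ∀ σ, ‖W σ‖ = Real.sqrt (∑ j, ‖w σ j‖ ^ 2) := fun σ => EuclideanSpace.norm_eq _
  have h2 : ∀ j, (∫ σ in (0 : ℝ)..h, W σ) j = ∫ σ in (0 : ℝ)..h, w σ j := by
    intro j
    have := (EuclideanSpace.proj (𝕜 := ℝ) j).intervalIntegral_comp_comm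
      (hWc.intervalIntegrable (μ := volume) 0 h)
    exact this.symm
  have h3 : Real.sqrt (∑ j, ‖(1 / h) * ∫ σ in (0 : ℝ)..h, w σ j‖ ^ 2) =
      ‖(1 / h) • ∫ σ in (0 : ℝ)..h, W σ‖ := by
    rw [EuclideanSpace.norm_eq]
    congr 1
    refine Finset.sum_congr rfl fun j _ => ?_
    rw [PiLp.smul_apply, h2, smul_eq_mul]
  rw [h3, norm_smul, Real.norm_eq_abs, abs_of_pos (by positivity)]
  refine mul_le_mul_of_nonneg_left ?_ (by positivity)
  refine (intervalIntegral.norm_integral_le_integral_norm hh.le).trans (le_of_eq ?_)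
  simp only [h1]

theorem v3 : T_V2 → T_V3 := by
  intro hV2 n v h hv hc hh
  obtain ⟨hs1, hs2, hs3⟩ := hV2 n v h hv hc hh
  have hX : ∀ p, gX (sm h v) p ≤ (1 / h) * ∫ σ in (0 : ℝ)..h, gX v (p.1, p.2.1, p.2.2 + σ) := by
    intro p
    have e : ∀ j, X (sm h v) j p =
        (1 / h) * ∫ σ in (0 : ℝ)..h, X v j (p.1, p.2.1, p.2.2 + σ) := fun j => by
      unfold X
      rw [hs3]
    unfold gX
    simp only [e]
    exact v3_norm (fun σ j => X v j (p.1, p.2.1, p.2.2 + σ))
      (fun j => (continuous_X hv j).comp (by fun_prop)) hh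
  have hY : ∀ p, gY (sm h v) p ≤ (1 / h) * ∫ σ in (0 : ℝ)..h, gY v (p.1, p.2.1, p.2.2 + σ) := by
    intro p
    have e : ∀ j, Y (sm h v) j p =
        (1 / h) * ∫ σ in (0 : ℝ)..h, Y v j (p.1, p.2.1, p.2.2 + σ) := fun j => by
      unfold Y
      rw [hs3]
    unfold gY
    simp only [e]
    exact v3_norm (fun σ j => Y v j (p.1, p.2.1, p.2.2 + σ))
      (fun j => (continuous_Y hv j).comp (by fun_prop)) hh
  obtain ⟨a1, a2⟩ := v3_avg (continuous_gX hv) (hasCompactSupport_gX hc) hh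
  obtain ⟨b1, b2⟩ := v3_avg (continuous_gY hv) (hasCompactSupport_gY hc) hh
  constructor
  · rw [← a2]
    exact integral_mono (integrable_gX hs1 hs2) a1 hX
  · rw [← b2]
    exact integral_mono (integrable_gY hs1 hs2) b1 hY

end Pool.Agent.H68.HS
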