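import Pool.Agent.H80.HS.Targets
import Pool.Agent.H68.HS.V3

namespace Pool.Agent.H68.HS
open MeasureTheory Set Pool.Agent.H80.HS
open scoped ContDiff ENNReal

theorem v4 : T_V1 → T_V2 → T_V4 := by
  intro hV1 hV2 n hn v h hv hc hh
  obtain ⟨hs1, hs2, -⟩ := hV2 n v h hv hc hh
  have hi : Integrable v := hv.continuous.integrable_of_hasCompactSupport hc
  have hsi : Integrable (sm h v) := hs1.continuous.integrable_of_hasCompactSupport hs2
  set D : H n → ℝ → ℝ := fun p σ => |v (p.1, p.2.1, p.2.2 + σ) - v p| with hD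
  have hDi : Integrable (Function.uncurry D)
      ((volume : Measure (H n)).prod (volume.restrict (Ioc 0 h))) := by
    have h1 := v3_integrable hv.continuous hc h
    have h2 : Integrable (fun z : H n × ℝ => v z.1)
        ((volume : Measure (H n)).prod (volume.restrict (Ioc 0 h))) := hi.comp_fst _
    exact (h1.sub h2).abs
  have hpt : ∀ p, |sm h v p - v p| ≤ (1 / h) * ∫ σ in Ioc 0 h, D p σ := by
    intro p
    have hcσ : Continuous fun σ : ℝ => v (p.1, p.2.1, p.2.2 + σ) :=
      hv.continuous.comp (by fun_prop)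
    have e : sm h v p - v p = (1 / h) * ∫ σ in (0 : ℝ)..h, (v (p.1, p.2.1, p.2.2 + σ) - v p) := by
      rw [intervalIntegral.integral_sub (hcσ.intervalIntegrable _ _)
        (continuous_const.intervalIntegrable _ _), intervalIntegral.integral_const]
      unfold sm
      simp only [sub_zero, smul_eq_mul]
      field_simp
    rw [e, abs_mul, abs_of_pos (by positivity : (0 : ℝ) < 1 / h)]
    refine mul_le_mul_of_nonneg_left ?_ (by positivity)
    rw [← intervalIntegral.integral_of_le hh.le]
    exact intervalIntegral.abs_integral_le_integral_abs hh.le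
  have hI : Integrable (fun p => ∫ σ in Ioc 0 h, D p σ) := hDi.integral_prod_left
  have h1 : ∫ p, |sm h v p - v p| ≤ ∫ p, (1 / h) * ∫ σ in Ioc 0 h, D p σ :=
    integral_mono (hsi.sub hi).abs (hI.const_mul _) hpt
  rw [integral_const_mul, integral_integral_swap hDi] at h1
  refine h1.trans ?_
  have hg : 0 ≤ ∫ p, grad v p := integral_nonneg fun p => grad_nonneg v p
  have h2 : ∫ σ in Ioc 0 h, ∫ p, D p σ ≤ ∫ σ in Ioc 0 h, 2 * Real.sqrt h * ∫ p, grad v p := by
    refine setIntegral_mono_on hDi.integral_prod_right (integrableOn_const (by simp)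
      ) measurableSet_Ioc fun σ hσ => ?_
    refine (hV1 n hn v σ hv hc hσ.1.le).trans ?_
    refine mul_le_mul_of_nonneg_right ?_ hg
    exact mul_le_mul_of_nonneg_left (Real.sqrt_le_sqrt hσ.2) (by norm_num)
  rw [setIntegral_const] at h2
  simp only [measureReal_def, Real.volume_Ioc, sub_zero, smul_eq_mul] at h2
  rw [ENNReal.toReal_ofReal hh.le] at h2
  calc (1 / h) * ∫ σ in Ioc 0 h, ∫ p, D p σ
      ≤ (1 / h) * (h * (2 * Real.sqrt h * ∫ p, grad v p)) :=
        mul_le_mul_of_nonneg_left h2 (by positivity)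
    _ = 2 * Real.sqrt h * ∫ p, grad v p := by field_simp

end Pool.Agent.H68.HS
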